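import Pool.Agent.Quad56.Exm
import Pool.Agent.Quad56.BandC

/-!
# MP_f8fadf_co: 2-faces which are not 4-gons and cross a pencil of facets
-/

namespace Pool.Agent.Lib_helper56.CrossingResult

open Finset
open scoped InnerProductSpace

/-- The four dimensional Euclidean space. -/
abbrev E4 := EuclideanSpace ℝ (Fin 4)

variable {n : ℕ}

/-- The polyhedron `P` of the inequalities `⟪u i, p⟫ ≤ b i`, `i < n`. -/
def Poly (u : Fin n → E4) (b : Fin n → ℝ) : Set E4 := {p | ∀ i, ⟪u i, p⟫_ℝ ≤ b i}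

/-- The facet `F_i` of `P`. -/
def Facet (u : Fin n → E4) (b : Fin n → ℝ) (i : Fin n) : Set E4 :=
  {p | p ∈ Poly u b ∧ ⟪u i, p⟫_ℝ = b i}

/-- `P` is a simple 4-polytope with exactly `n` facets `F_0, ..., F_(n-1)`: it is bounded, for every
`i` some point of `P` lies in `F_i` and in no other `F_j`, and every point of `P` lies in at most
four of the `F_j`. -/
structure IsSimple4Polytope (u : Fin n → E4) (b : Fin n → ℝ) : Prop where
  bounded : Bornology.IsBounded (Poly u b)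
  facet : ∀ i, ∃ p ∈ Poly u b, ∀ j, ⟪u j, p⟫_ℝ = b j ↔ j = i
  simple : ∀ p ∈ Poly u b, {j | ⟪u j, p⟫_ℝ = b j}.ncard ≤ 4

/-- The facets in `L` form a pencil: the vectors `(u i, b i)`, `i ∈ L`, span a space of dimension at
most 3, that is, the hyperplanes of these facets have a common projective line. -/
def IsPencil (u : Fin n → E4) (b : Fin n → ℝ) (L : Finset (Fin n)) : Prop :=
  Module.finrank ℝ (Submodule.span ℝ ((fun i => ((u i, b i) : E4 × ℝ)) '' (L : Set (Fin n)))) ≤ 3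

open Classical in
/-- The 2-faces `F_x ∩ F_y` (`x ∈ L`, `y ∉ L`) of the simple 4-polytope `P` which meet two facets
`F_p`, `F_q` (`p, q ∈ L` different from `x`, `p ≠ q`) and are not 4-gons. -/
noncomputable def CrossingNonQuads (u : Fin n → E4) (b : Fin n → ℝ) (L : Finset (Fin n)) :
    Finset (Fin n × Fin n) :=
  univ.filter fun e => e.1 ∈ L ∧ e.2 ∉ L ∧
    (Set.extremePoints ℝ (Facet u b e.1 ∩ Facet u b e.2)).ncard ≠ 4 ∧
    ∃ p ∈ L, ∃ q ∈ L, p ≠ e.1 ∧ q ≠ e.1 ∧ p ≠ q ∧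
      (Facet u b e.1 ∩ Facet u b e.2 ∩ Facet u b p).Nonempty ∧
      (Facet u b e.1 ∩ Facet u b e.2 ∩ Facet u b q).Nonempty

theorem inter_eq (u : Fin n → E4) (b : Fin n → ℝ) (i j : Fin n) :
    Facet u b i ∩ Facet u b j = Quad56.Two u b i j := by
  ext p
  constructor
  · rintro ⟨⟨h1, h2⟩, -, h3⟩
    exact ⟨h1, h2, h3⟩
  · rintro ⟨h1, h2, h3⟩
    exact ⟨⟨h1, h2⟩, h1, h3⟩

theorem meet_iff (u : Fin n → E4) (b : Fin n → ℝ) (i j p : Fin n) :
    (Facet u b i ∩ Facet u b j ∩ Facet u b p).Nonempty ↔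
      ∃ v ∈ Quad56.Two u b i j, ⟪u p, v⟫_ℝ = b p := by
  rw [inter_eq]
  constructor
  · rintro ⟨v, h1, -, h3⟩
    exact ⟨v, h1, h3⟩
  · rintro ⟨v, h1, h3⟩
    exact ⟨v, h1, h1.1, h3⟩

theorem simple_iff (u : Fin n → E4) (b : Fin n → ℝ) :
    IsSimple4Polytope u b ↔ Quad56.Simple4 u b := by
  have hc : ∀ p : E4, {j | ⟪u j, p⟫_ℝ = b j}.ncard = (Quad56.act u b p).card := by
    intro p
    rw [← Set.ncard_coe_finset]
    congr 1
    ext j
    rw [mem_coe, Quad56.mem_act]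
    rfl
  have hf : ∀ (p : E4) (i : Fin n), (∀ j, ⟪u j, p⟫_ℝ = b j ↔ j = i) ↔
      Quad56.act u b p = {i} := by
    intro p i
    constructor
    · intro h
      ext j
      rw [Quad56.mem_act, mem_singleton]
      exact h j
    · intro h j
      rw [← Quad56.mem_act, h, mem_singleton]
  constructor
  · intro h
    refine ⟨h.bounded, fun i => ?_, fun p hp => ?_⟩
    · obtain ⟨p, hp, h1⟩ := h.facet i
      exact ⟨p, hp, (hf p i).mp h1⟩
    · rw [← hc]
      exact h.simple p hp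
  · intro h
    refine ⟨h.bdd, fun i => ?_, fun p hp => ?_⟩
    · obtain ⟨p, hp, h1⟩ := h.facet i
      exact ⟨p, hp, (hf p i).mpr h1⟩
    · rw [hc]
      exact h.simple p hp

theorem crossing_eq (u : Fin n → E4) (b : Fin n → ℝ) (L : Finset (Fin n)) :
    CrossingNonQuads u b L = Quad56.BandP u b L := by
  unfold CrossingNonQuads Quad56.BandP
  ext e
  simp only [mem_filter, mem_univ, true_and, meet_iff]
  simp only [inter_eq]

/-- **Main result.** (1) For a pencil `L` of `m` facets of a simple 4-polytope with `n` facets, at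
most `12 n √m` of the 2-faces `F_x ∩ F_y` (`x ∈ L`, `y ∉ L`) which meet two further facets of `L`
are not 4-gons. (2) For all `m ≥ 100` and `n ≥ 2 m` there are such a polytope and such a pencil
with at least `n √m / 400` such 2-faces. -/
theorem result :
    (∀ (n : ℕ) (u : Fin n → E4) (b : Fin n → ℝ) (L : Finset (Fin n)),
      IsSimple4Polytope u b → IsPencil u b L →
      ((CrossingNonQuads u b L).card : ℝ) ≤ 12 * (n * √(L.card : ℝ))) ∧
    ∀ m n : ℕ, 100 ≤ m → 2 * m ≤ n → ∃ (u : Fin n → E4) (b : Fin n → ℝ) (L : Finset (Fin n)),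
      IsSimple4Polytope u b ∧ IsPencil u b L ∧ L.card = m ∧
      (n : ℝ) * √(m : ℝ) / 400 ≤ ((CrossingNonQuads u b L).card : ℝ) := by
  constructor
  · intro n u b L h hL
    rw [crossing_eq]
    exact Quad56.band_main ((simple_iff u b).mp h) hL
  · intro m n hm hmn
    obtain ⟨u, b, A, B, h, hAB, hA, hB, hcard, hsp, Q, hQ, hQ'⟩ := Quad56.exm m n hm hmn
    refine ⟨u, b, A, (simple_iff u b).mpr h, hA, hcard, hQ.trans ?_⟩
    rw [crossing_eq]
    have hsub : Q ⊆ Quad56.BandP u b A := by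
      intro z hz
      obtain ⟨hzA, hzB, ⟨k, hk, hkz, l, hl, hlz, hkl, ⟨τ, hτ, hτ1, hτ2, hτ3⟩,
        ⟨σ, hσ, hσ1, hσ2, hσ3⟩⟩, h5⟩ := hQ' z hz
      have hpt : ∀ {τ : Finset (Fin n)} {k : Fin n}, τ ∈ Quad56.tets u b → z.1 ∈ τ → z.2 ∈ τ →
          k ∈ τ → ∃ v ∈ Quad56.Two u b z.1 z.2, ⟪u k, v⟫_ℝ = b k := by
        intro τ k hτ h1 h2 h3
        obtain ⟨-, v, hv, hva⟩ := Quad56.mem_tets.mp hτ
        refine ⟨v, ⟨hv, ?_, ?_⟩, ?_⟩
        · rw [← Quad56.mem_act, hva]
          exact h1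
        · rw [← Quad56.mem_act, hva]
          exact h2
        · rw [← Quad56.mem_act, hva]
          exact h3
      have hcard5 : (Set.extremePoints ℝ (Quad56.Two u b z.1 z.2)).ncard ≠ 4 := by
        rw [Quad56.ncard_extreme h]
        omega
      simp only [Quad56.BandP, mem_filter, mem_univ, true_and]
      exact ⟨hzA, fun hc => Finset.disjoint_left.mp hAB hc hzB, hcard5, k, hk, l, hl, hkz, hlz,
        hkl, hpt hτ hτ1 hτ2 hτ3, hpt hσ hσ1 hσ2 hσ3⟩
    exact_mod_cast card_le_card hsub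

end Pool.Agent.Lib_helper56.CrossingResult
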